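import Mathlib

/-!
MP_8ac0e4_co, Q1: the conjectured value `La*([k]^d, V_2) = (1 + 1/d + o(1)) w_{k,d}` is false for
`d = 3`. There are strong `V_2`-free sets of size `(7/5 - o(1)) w_{k,3}` in `[k]^3`.
-/

set_option autoImplicit false

namespace Pool.Agent.Results.MP_8ac0e4_co.GridVee

open Filter Topology

/-- A set `F` in the grid `[k]^d` (with the coordinatewise order) is strong `V_2`-free: it does not
contain `a < b`, `a < c` with `b` and `c` incomparable. -/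
def StrongVeeFree {d k : ℕ} (F : Finset (Fin d → Fin k)) : Prop :=
  ∀ a ∈ F, ∀ b ∈ F, ∀ c ∈ F, a < b → a < c → b ≤ c ∨ c ≤ b

/-- `La*([k]^d, V_2)`: the largest size of a strong `V_2`-free set in `[k]^d`. -/
noncomputable def LaStar (d k : ℕ) : ℕ :=
  sSup {n | ∃ F : Finset (Fin d → Fin k), StrongVeeFree F ∧ F.card = n}

/-- `w_{k,d}`: the largest size of an antichain in `[k]^d`. -/
noncomputable def width (d k : ℕ) : ℕ :=
  sSup {n | ∃ F : Finset (Fin d → Fin k),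
    IsAntichain (· ≤ ·) (F : Set (Fin d → Fin k)) ∧ F.card = n}

/-! ### The width of `[k]^3` -/

/-- The number of the chain of `[k]^2` through `(x, y)`. -/
def cno (k x y : ℕ) : ℕ := if x + y ≤ k - 1 then y else k - 1 - x

lemma cno_lt {k x y : ℕ} (hx : x < k) (hy : y < k) : cno k x y < k := by
  unfold cno; split_ifs <;> omega

lemma comp_of_cno {k x y x' y' : ℕ} (hx : x < k) (_hy : y < k) (hx' : x' < k) (_hy' : y' < k)
    (h : cno k x y = cno k x' y') : (x ≤ x' ∧ y ≤ y') ∨ (x' ≤ x ∧ y' ≤ y) := by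
  unfold cno at h; split_ifs at h <;> omega

lemma sum_odd (m : ℕ) : ∑ i ∈ Finset.range m, (2 * m - 1 - 2 * i) = m ^ 2 := by
  induction m with
  | zero => simp
  | succ m ih =>
    rw [Finset.sum_range_succ']
    have : ∑ i ∈ Finset.range m, (2 * (m + 1) - 1 - 2 * (i + 1)) =
        ∑ i ∈ Finset.range m, (2 * m - 1 - 2 * i) :=
      Finset.sum_congr rfl fun i _ => by omega
    rw [this, ih]
    have : 2 * (m + 1) - 1 - 2 * 0 = 2 * m + 1 := by omega
    rw [this]; ring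

lemma card_antichain {k : ℕ} (F : Finset (Fin 3 → Fin k))
    (hF : IsAntichain (· ≤ ·) (F : Set (Fin 3 → Fin k))) : 4 * F.card ≤ 3 * k ^ 2 + 1 := by
  classical
  set c : (Fin 3 → Fin k) → ℕ := fun x => cno k (x 0) (x 1) with hc
  have hcl : ∀ x ∈ F, c x ∈ Finset.range k := fun x _ =>
    Finset.mem_range.mpr (cno_lt (x 0).2 (x 1).2)
  have hcard : F.card = ∑ j ∈ Finset.range k, (F.filter fun x => c x = j).card :=
    Finset.card_eq_sum_card_fiberwise hcl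
  have heq : ∀ x ∈ F, ∀ y ∈ F, (x ≤ y ∨ y ≤ x) → x = y := by
    intro x hx y hy h
    by_contra hne
    rcases h with h | h
    · exact hF hx hy hne h
    · exact hF hy hx (Ne.symm hne) h
  have hle : ∀ x y : Fin 3 → Fin k, (x 0 : ℕ) ≤ y 0 → (x 1 : ℕ) ≤ y 1 → (x 2 : ℕ) ≤ y 2 → x ≤ y := by
    intro x y h0 h1 h2 i
    fin_cases i
    · exact h0
    · exact h1
    · exact h2
  have h1 : ∀ j, (F.filter fun x => c x = j).card ≤ k := by
    intro j
    have : (F.filter fun x => c x = j).card ≤ (Finset.range k).card := by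
      refine Finset.card_le_card_of_injOn (fun x => ((x 2 : Fin k) : ℕ)) ?_ ?_
      · intro x _
        simp
      · intro x hx y hy hxy
        simp only [Finset.coe_filter, Set.mem_ofPred_eq] at hx hy
        have hxy' : ((x 2 : Fin k) : ℕ) = y 2 := hxy
        have hcc : cno k (x 0) (x 1) = cno k (y 0) (y 1) := hx.2.trans hy.2.symm
        rcases comp_of_cno (x 0).2 (x 1).2 (y 0).2 (y 1).2 hcc with h | h
        · exact heq x hx.1 y hy.1 (Or.inl (hle x y h.1 h.2 hxy'.le))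
        · exact heq x hx.1 y hy.1 (Or.inr (hle y x h.1 h.2 hxy'.ge))
    simpa using this
  have h2 : ∀ j, (F.filter fun x => c x = j).card ≤ 2 * k - 1 - 2 * j := by
    intro j
    have : (F.filter fun x => c x = j).card ≤ (Finset.Ico j (2 * k - 1 - j)).card := by
      refine Finset.card_le_card_of_injOn (fun x => ((x 0 : Fin k) : ℕ) + ((x 1 : Fin k) : ℕ)) ?_ ?_
      · intro x hx
        simp only [Finset.coe_filter, Set.mem_ofPred_eq] at hx
        have hcc : cno k (x 0) (x 1) = j := hx.2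
        have e0 := (x 0).2
        have e1 := (x 1).2
        simp only [Finset.coe_Ico, Set.mem_Ico]
        unfold cno at hcc
        split_ifs at hcc <;> omega
      · intro x hx y hy hxy
        simp only [Finset.coe_filter, Set.mem_ofPred_eq] at hx hy
        have hxy' : ((x 0 : Fin k) : ℕ) + ((x 1 : Fin k) : ℕ) = (y 0 : Fin k) + (y 1 : Fin k) := hxy
        have hcc : cno k (x 0) (x 1) = cno k (y 0) (y 1) := hx.2.trans hy.2.symm
        have hco := comp_of_cno (x 0).2 (x 1).2 (y 0).2 (y 1).2 hcc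
        have e0 : ((x 0 : Fin k) : ℕ) = y 0 := by omega
        have e1 : ((x 1 : Fin k) : ℕ) = y 1 := by omega
        rcases le_total ((x 2 : Fin k) : ℕ) (y 2) with h | h
        · exact heq x hx.1 y hy.1 (Or.inl (hle x y e0.le e1.le h))
        · exact heq x hx.1 y hy.1 (Or.inr (hle y x e0.ge e1.ge h))
    refine this.trans ?_
    simp only [Nat.card_Ico]
    omega
  obtain ⟨m, r, hk, hr⟩ : ∃ m r, k = r + m ∧ (r = m ∨ r = m + 1) := by
    refine ⟨k / 2, k - k / 2, by omega, by omega⟩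
  have hs : F.card ≤ r * k + m ^ 2 := by
    have hR : Finset.range k = Finset.range (r + m) := by rw [hk]
    rw [hcard, hR, Finset.sum_range_add]
    refine add_le_add ?_ ?_
    · calc ∑ j ∈ Finset.range r, (F.filter fun x => c x = j).card
          ≤ ∑ _j ∈ Finset.range r, k := Finset.sum_le_sum fun j _ => h1 j
        _ = r * k := by simp
    · calc ∑ j ∈ Finset.range m, (F.filter fun x => c x = r + j).card
          ≤ ∑ j ∈ Finset.range m, (2 * m - 1 - 2 * j) := by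
            refine Finset.sum_le_sum fun j _ => (h2 (r + j)).trans ?_
            omega
        _ = m ^ 2 := sum_odd m
  clear hcard hcl h1 h2 heq hle hc hF
  generalize F.card = M at hs ⊢
  clear c F
  subst hk
  rcases hr with rfl | rfl
  · nlinarith
  · nlinarith

lemma width_le (k : ℕ) : 4 * width 3 k ≤ 3 * k ^ 2 + 1 := by
  have hne : {n | ∃ F : Finset (Fin 3 → Fin k),
      IsAntichain (· ≤ ·) (F : Set (Fin 3 → Fin k)) ∧ F.card = n}.Nonempty :=
    ⟨0, ∅, by simp, by simp⟩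
  have hb : width 3 k ≤ (3 * k ^ 2 + 1) / 4 := by
    refine csSup_le hne ?_
    rintro n ⟨F, hF, rfl⟩
    have := card_antichain F hF
    omega
  omega

lemma width_pos {k : ℕ} (hk : 0 < k) : 0 < width 3 k := by
  have : 1 ≤ width 3 k := by
    refine le_csSup ?_ ?_
    · refine ⟨Fintype.card (Fin 3 → Fin k), ?_⟩
      rintro n ⟨F, _, rfl⟩
      exact Finset.card_le_univ F
    · exact ⟨{fun _ => ⟨0, hk⟩}, by simp, by simp⟩
  omega

/-! ### The construction -/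

/-- The pattern: residues modulo five that are allowed in the three layers. -/
def Pat (s t : ℕ) : Prop := (s = 0 ∧ t ≠ 4) ∨ (s = 1 ∧ (t = 0 ∨ t = 3)) ∨ (s = 2 ∧ t = 4)

instance (s t : ℕ) : Decidable (Pat s t) := by unfold Pat; infer_instance

/-- The set: points with coordinate sum `S + s` and `y - x = t` modulo `5`, `Pat s t`. -/
def Good (S x y z : ℕ) : Prop := ∃ s, x + y + z = S + s ∧ Pat s ((y + 4 * x) % 5)

instance (S x y z : ℕ) : Decidable (Good S x y z) :=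
  decidable_of_iff (S ≤ x + y + z ∧ Pat (x + y + z - S) ((y + 4 * x) % 5)) (by
    unfold Good
    constructor
    · rintro ⟨h, h'⟩
      exact ⟨_, by omega, h'⟩
    · rintro ⟨s, h, h'⟩
      have : x + y + z - S = s := by omega
      rw [this]
      exact ⟨by omega, h'⟩)

lemma good_comp {S x y z x₁ y₁ z₁ x₂ y₂ z₂ : ℕ} (h : Good S x y z) (h₁ : Good S x₁ y₁ z₁)
    (h₂ : Good S x₂ y₂ z₂) (a₁ : x ≤ x₁) (b₁ : y ≤ y₁) (c₁ : z ≤ z₁) (a₂ : x ≤ x₂) (b₂ : y ≤ y₂)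
    (c₂ : z ≤ z₂) (n₁ : x + y + z < x₁ + y₁ + z₁) (n₂ : x + y + z < x₂ + y₂ + z₂) :
    (x₁ ≤ x₂ ∧ y₁ ≤ y₂ ∧ z₁ ≤ z₂) ∨ (x₂ ≤ x₁ ∧ y₂ ≤ y₁ ∧ z₂ ≤ z₁) := by
  obtain ⟨s, hs, hp⟩ := h
  obtain ⟨s₁, hs₁, hp₁⟩ := h₁
  obtain ⟨s₂, hs₂, hp₂⟩ := h₂
  obtain ⟨u, rfl⟩ := Nat.exists_eq_add_of_le a₁
  obtain ⟨v, rfl⟩ := Nat.exists_eq_add_of_le b₁
  obtain ⟨w, rfl⟩ := Nat.exists_eq_add_of_le c₁
  obtain ⟨u', rfl⟩ := Nat.exists_eq_add_of_le a₂
  obtain ⟨v', rfl⟩ := Nat.exists_eq_add_of_le b₂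
  obtain ⟨w', rfl⟩ := Nat.exists_eq_add_of_le c₂
  unfold Pat at hp hp₁ hp₂
  rcases hp with ⟨rfl, hp⟩ | ⟨rfl, hp⟩ | ⟨rfl, hp⟩ <;>
  rcases hp₁ with ⟨rfl, hp₁⟩ | ⟨rfl, hp₁⟩ | ⟨rfl, hp₁⟩ <;>
  rcases hp₂ with ⟨rfl, hp₂⟩ | ⟨rfl, hp₂⟩ | ⟨rfl, hp₂⟩ <;> try (exfalso; omega)
  all_goals
    have hu : u ≤ 2 := by omega
    have hv : v ≤ 2 := by omega
    have hu' : u' ≤ 2 := by omega
    have hv' : v' ≤ 2 := by omega
    interval_cases u <;> interval_cases v <;> try (exfalso; omega)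
  all_goals
    interval_cases u' <;> interval_cases v' <;> omega

lemma veeFree (k S : ℕ) : StrongVeeFree
    (Finset.univ.filter fun x : Fin 3 → Fin k => Good S (x 0) (x 1) (x 2)) := by
  intro a ha b hb c hc hab hac
  simp only [Finset.mem_filter, Finset.mem_univ, true_and] at ha hb hc
  have e1 := fun i => hab.le i
  have e2 := fun i => hac.le i
  have n : ∀ {u v : Fin 3 → Fin k}, u < v → (u 0 : ℕ) + u 1 + u 2 < v 0 + v 1 + v 2 := by
    intro u v huv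
    obtain ⟨hle, i, hi⟩ := Pi.lt_def.mp huv
    have h0 : (u 0 : ℕ) ≤ v 0 := hle 0
    have h1 : (u 1 : ℕ) ≤ v 1 := hle 1
    have h2 : (u 2 : ℕ) ≤ v 2 := hle 2
    have hi' : (u i : ℕ) < v i := hi
    fin_cases i
    · simp at hi'; omega
    · simp at hi'; omega
    · simp at hi'; omega
  have hle : ∀ x y : Fin 3 → Fin k, (x 0 : ℕ) ≤ y 0 → (x 1 : ℕ) ≤ y 1 → (x 2 : ℕ) ≤ y 2 → x ≤ y := by
    intro x y h0 h1 h2 i
    fin_cases i
    · exact h0
    · exact h1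
    · exact h2
  rcases good_comp ha hb hc (e1 0) (e1 1) (e1 2) (e2 0) (e2 1) (e2 2) (n hab) (n hac) with h | h
  · exact Or.inl (hle b c h.1 h.2.1 h.2.2)
  · exact Or.inr (hle c b h.1 h.2.1 h.2.2)

/-- The `35` elements of the pattern over a `5 × 5` square. -/
def pats : Finset (ℕ × ℕ × ℕ) :=
  (Finset.range 5 ×ˢ Finset.range 5 ×ˢ Finset.range 3).filter
    fun p => Pat p.2.2 ((p.2.1 + 4 * p.1) % 5)

lemma card_pats : pats.card = 35 := by decide

/-- The squares: first coordinate. -/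
def sqx (N u w : ℕ) : ℕ := if w < N + u - 3 then u else N + u

/-- The squares: second coordinate. -/
def sqy (N u w : ℕ) : ℕ := if w < N + u - 3 then N + 3 - u + w else 3 + (w - (N + u - 3))

lemma sq_bounds {N u w : ℕ} (hN : 3 ≤ N) (hu : u < N) (hw : w < 3 * N - 6) :
    sqx N u w < 2 * N ∧ sqy N u w < 2 * N ∧ N + 3 ≤ sqx N u w + sqy N u w ∧
      sqx N u w + sqy N u w ≤ 3 * N := by
  unfold sqx sqy
  split_ifs <;> omega

lemma sq_inj {N u w u' w' : ℕ} (hN : 3 ≤ N) (hu : u < N) (hu' : u' < N)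
    (h1 : sqx N u w = sqx N u' w') (h2 : sqy N u w = sqy N u' w') : u = u' ∧ w = w' := by
  unfold sqx sqy at *
  split_ifs at * <;> omega

/-- The first coordinate of a point of the set. -/
def X (N : ℕ) (t : ℕ × ℕ × ℕ × ℕ × ℕ) : ℕ := 5 * sqx N t.1 t.2.1 + t.2.2.1

/-- The second coordinate of a point of the set. -/
def Y (N : ℕ) (t : ℕ × ℕ × ℕ × ℕ × ℕ) : ℕ := 5 * sqy N t.1 t.2.1 + t.2.2.2.1

/-- The third coordinate of a point of the set. -/
def Z (N : ℕ) (t : ℕ × ℕ × ℕ × ℕ × ℕ) : ℕ := 15 * N + 8 + t.2.2.2.2 - X N t - Y N t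

lemma card_ge (k N : ℕ) (hN : 3 ≤ N) (hk : 10 * N ≤ k) :
    N * ((3 * N - 6) * 35) ≤
      (Finset.univ.filter fun x : Fin 3 → Fin k => Good (15 * N + 8) (x 0) (x 1) (x 2)).card := by
  classical
  have hk0 : 0 < k := by omega
  set T : Finset (ℕ × ℕ × ℕ × ℕ × ℕ) := Finset.range N ×ˢ Finset.range (3 * N - 6) ×ˢ pats with hT
  have hTc : T.card = N * ((3 * N - 6) * 35) := by
    rw [hT, Finset.card_product, Finset.card_product, card_pats, Finset.card_range,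
      Finset.card_range]
  rw [← hTc]
  have hmem : ∀ t ∈ T, t.1 < N ∧ t.2.1 < 3 * N - 6 ∧ t.2.2.1 < 5 ∧ t.2.2.2.1 < 5 ∧
      t.2.2.2.2 < 3 ∧ Pat t.2.2.2.2 ((t.2.2.2.1 + 4 * t.2.2.1) % 5) := by
    rintro ⟨u, w, i, j, s⟩ ht
    simpa [hT, pats, and_assoc] using ht
  have hb : ∀ t ∈ T, X N t < k ∧ Y N t < k ∧ Z N t < k ∧
      X N t + Y N t + Z N t = 15 * N + 8 + t.2.2.2.2 := by
    intro t ht
    obtain ⟨h1, h2, h3, h4, h5, -⟩ := hmem t ht
    obtain ⟨b1, b2, b3, b4⟩ := sq_bounds hN h1 h2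
    unfold Z X Y
    omega
  refine Finset.card_le_card_of_injOn
    (fun t => ![⟨X N t % k, Nat.mod_lt _ hk0⟩, ⟨Y N t % k, Nat.mod_lt _ hk0⟩,
      ⟨Z N t % k, Nat.mod_lt _ hk0⟩]) ?_ ?_
  · intro t ht
    have ht' : t ∈ T := ht
    obtain ⟨b1, b2, b3, b4⟩ := hb t ht'
    obtain ⟨-, -, -, -, -, h6⟩ := hmem t ht'
    simp only [Finset.coe_filter, Finset.mem_univ, true_and, Set.mem_ofPred_eq,
      Matrix.cons_val_zero, Matrix.cons_val_one, Matrix.cons_val_two,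
      Nat.mod_eq_of_lt b1, Nat.mod_eq_of_lt b2, Nat.mod_eq_of_lt b3]
    refine ⟨t.2.2.2.2, b4, ?_⟩
    have : (Y N t + 4 * X N t) % 5 = (t.2.2.2.1 + 4 * t.2.2.1) % 5 := by
      unfold X Y; omega
    rw [this]
    exact h6
  · intro t ht t' ht' htt
    have ht1 : t ∈ T := ht
    have ht2 : t' ∈ T := ht'
    obtain ⟨b1, b2, b3, b4⟩ := hb t ht1
    obtain ⟨b1', b2', b3', b4'⟩ := hb t' ht2
    obtain ⟨h1, h2, h3, h4, h5, -⟩ := hmem t ht1
    obtain ⟨h1', h2', h3', h4', h5', -⟩ := hmem t' ht2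
    have e0 : (⟨X N t % k, Nat.mod_lt _ hk0⟩ : Fin k) = ⟨X N t' % k, Nat.mod_lt _ hk0⟩ :=
      congrFun htt 0
    have e1 : (⟨Y N t % k, Nat.mod_lt _ hk0⟩ : Fin k) = ⟨Y N t' % k, Nat.mod_lt _ hk0⟩ :=
      congrFun htt 1
    have e2 : (⟨Z N t % k, Nat.mod_lt _ hk0⟩ : Fin k) = ⟨Z N t' % k, Nat.mod_lt _ hk0⟩ :=
      congrFun htt 2
    simp only [Fin.mk.injEq, Nat.mod_eq_of_lt b1, Nat.mod_eq_of_lt b2, Nat.mod_eq_of_lt b3,
      Nat.mod_eq_of_lt b1', Nat.mod_eq_of_lt b2', Nat.mod_eq_of_lt b3'] at e0 e1 e2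
    have hs : t.2.2.2.2 = t'.2.2.2.2 := by omega
    unfold X at e0
    unfold Y at e1
    have hi : t.2.2.1 = t'.2.2.1 := by omega
    have hj : t.2.2.2.1 = t'.2.2.2.1 := by omega
    have hx : sqx N t.1 t.2.1 = sqx N t'.1 t'.2.1 := by omega
    have hy : sqy N t.1 t.2.1 = sqy N t'.1 t'.2.1 := by omega
    obtain ⟨hu, hw⟩ := sq_inj hN h1 h1' hx hy
    exact Prod.ext hu (Prod.ext hw (Prod.ext hi (Prod.ext hj hs)))

lemma LaStar_ge (k : ℕ) (hk : 30 ≤ k) :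
    (k / 10) * ((3 * (k / 10) - 6) * 35) ≤ LaStar 3 k := by
  refine (card_ge k (k / 10) (by omega) (by omega)).trans ?_
  refine le_csSup ?_ ⟨_, veeFree k _, rfl⟩
  refine ⟨Fintype.card (Fin 3 → Fin k), ?_⟩
  rintro n ⟨F, _, rfl⟩
  exact Finset.card_le_univ F

/-- The ratio is asymptotically at least `7/5`. -/
lemma ratio_ge (ε : ℝ) (hε : 0 < ε) :
    ∀ᶠ k : ℕ in atTop, (7 / 5 - ε) * (width 3 k : ℝ) ≤ (LaStar 3 k : ℝ) := by
  obtain ⟨K, hK⟩ := exists_nat_gt (54 / ε)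
  filter_upwards [eventually_ge_atTop (max 30 K)] with k hk
  have hk30 : 30 ≤ k := le_trans (le_max_left _ _) hk
  have hkK : K ≤ k := le_trans (le_max_right _ _) hk
  have hL := LaStar_ge k hk30
  have hW := width_le k
  obtain ⟨N, hN⟩ : ∃ N, N = k / 10 := ⟨_, rfl⟩
  rw [← hN] at hL
  have hN3 : 3 ≤ N := by omega
  have hkN : k ≤ 10 * N + 9 := by omega
  obtain ⟨N', rfl⟩ : ∃ N', N = N' + 2 := ⟨N - 2, by omega⟩
  have hL' : (N' + 2) * (3 * N' * 35) ≤ LaStar 3 k := by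
    have : 3 * (N' + 2) - 6 = 3 * N' := by omega
    rw [this] at hL
    exact hL
  have hL'' : ((N' : ℝ) + 2) * (3 * N' * 35) ≤ (LaStar 3 k : ℝ) := by exact_mod_cast hL'
  have hW' : 4 * (width 3 k : ℝ) ≤ 3 * (k : ℝ) ^ 2 + 1 := by exact_mod_cast hW
  have hkN' : (k : ℝ) ≤ 10 * (N' + 2) + 9 := by exact_mod_cast hkN
  have hk30' : (30 : ℝ) ≤ k := by exact_mod_cast hk30
  have hkK' : 54 / ε < k := lt_of_lt_of_le hK (by exact_mod_cast hkK)
  have hεk : 54 < ε * k := by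
    rw [div_lt_iff₀ hε] at hkK'
    linarith
  rcases le_total (7 / 5) ε with h | h
  · have h0 : (0 : ℝ) ≤ width 3 k := Nat.cast_nonneg _
    have h1 : (0 : ℝ) ≤ LaStar 3 k := Nat.cast_nonneg _
    nlinarith
  · have e1 : (7 / 5 - ε) * (width 3 k : ℝ) ≤ (7 / 5 - ε) * ((3 * (k : ℝ) ^ 2 + 1) / 4) :=
      mul_le_mul_of_nonneg_left (by linarith) (by linarith)
    have e2 : (1.05 : ℝ) * k ^ 2 - 39.9 * k + 274 ≤ ((N' : ℝ) + 2) * (3 * N' * 35) := by
      have hm : ((k : ℝ) - 29) / 10 ≤ N' := by linarith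
      have hm0 : (0 : ℝ) ≤ ((k : ℝ) - 29) / 10 := by linarith
      nlinarith
    have e3 : 54 * (k : ℝ) ≤ ε * (k : ℝ) ^ 2 := by nlinarith
    nlinarith

/-- **Disproof.** In `[k]^3` there are strong `V_2`-free sets of size `(7/5 - o(1)) w_{k,3}`; so it
is not true that `La*([k]^d, V_2) = (1 + 1/d + o(1)) w_{k,d}` for every fixed `d ≥ 3`. -/
theorem result :
    (∀ ε : ℝ, 0 < ε → ∀ᶠ k : ℕ in atTop, (7 / 5 - ε) * (width 3 k : ℝ) ≤ (LaStar 3 k : ℝ)) ∧
      ¬ Tendsto (fun k : ℕ => (LaStar 3 k : ℝ) / (width 3 k : ℝ)) atTop (𝓝 (1 + 1 / 3)) ∧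
      ¬ ∀ d : ℕ, 3 ≤ d →
        Tendsto (fun k : ℕ => (LaStar d k : ℝ) / (width d k : ℝ)) atTop (𝓝 (1 + 1 / (d : ℝ))) := by
  have h2 : ¬ Tendsto (fun k : ℕ => (LaStar 3 k : ℝ) / (width 3 k : ℝ)) atTop (𝓝 (1 + 1 / 3)) := by
    intro h
    have h1 : ∀ᶠ k : ℕ in atTop, (LaStar 3 k : ℝ) / (width 3 k : ℝ) < 1.35 :=
      h.eventually_lt_const (by norm_num)
    obtain ⟨k, hk1, hk2, hk3⟩ := (h1.and ((ratio_ge 0.01 (by norm_num)).and
      (eventually_ge_atTop 1))).exists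
    have hp : (0 : ℝ) < width 3 k := by exact_mod_cast width_pos hk3
    rw [div_lt_iff₀ hp] at hk1
    norm_num at hk1 hk2
    nlinarith
  refine ⟨ratio_ge, h2, fun h => h2 ?_⟩
  have := h 3 le_rfl
  simpa using this

end Pool.Agent.Results.MP_8ac0e4_co.GridVee
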